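import Pool.Agent.U463.PG.Main

/-!
MP_c7af3c_ag, Q1: the conjecture of Lang, that a projective variety is groupless if and only if it
is arithmetically hyperbolic, modulo an arbitrary closed set `Z`, for the varieties of the vectors
whose `m`-th powers, for instance whose squares, are the values of a polynomial of degree at most `n`
at given elements, for ALL degrees `n`, and for their closed subsets `V` such that the points of `V`
outside of `Z` are simple. (For `n < 2 m` see the starting result `PolynomialValueGroupless`; for
`n ≥ 2 m` these varieties contain planes.)

`PowVal a n m` is the (cone over the) smooth complete intersection `X` in `P^N` of the vectors `x`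
for which there is a polynomial `H` of degree at most `n` with `x i ^ m = H (a i)` for all `i`. The
closed subset `V` of it is given by forms `F`, a second closed subset `Z` of projective space by
forms `G` (it is empty for the family with the only member `1`). `SimpleOff a n m F G` says that for
the points of `V` outside of `Z` the polynomial `H` is not divisible by the `m`-th power of a
polynomial of degree at least two. The following conditions are considered.

* `AlgHypOff F G`: `V` is algebraically hyperbolic modulo `Z`, that is, for some `B` the degree of
  every morphism `f` from a smooth projective curve of genus `g` to `V` with image not in `Z` is at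
  most `B max (2 g - 2, 0)`. The curve is given by its function field `L`, the morphism by its
  homogeneous coordinates; its degree is `pht K f`, and `2 g - 2` is `canDeg K L`.
* `BoundedOff F G`: these degrees are bounded for each curve.
* `GenusOneOff F G`: these morphisms are constant if `2 g - 2 ≤ 0`.
* `GmOff F G`: the images of the nonconstant morphisms from the multiplicative group to `V` are in
  `Z`.
* `LineOff F G`: the lines in `V` are in `Z`.
* `RingPts F G T` is the set of the points of `V` outside `Z` with homogeneous coordinates in the
  ring `A` generated by `T` that generate the unit ideal of `A`.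
* `FieldPts F G k0 T` (in an extension `L` of `K`) is the set of the points of `V` outside `Z` with
  homogeneous coordinates in the field generated by `T` over the subfield `k0` of `K`.

Arithmetic hyperbolicity lies between the finiteness of all the sets of the last kind and the
finiteness of all the sets of the kind before; grouplessness lies between `BoundedOff` and
`GenusOneOff` (for `Z` empty).

`Moving k0 a n` says that more than `4 n` of the `a j` lie in the field `k0`, and that for an element
`s` that is transcendental over `k0` there are `n` of the `a j` such that `s` is algebraic over
`k0 (a j)`.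
-/

set_option autoImplicit false

namespace Pool.Agent.Results.MP_c7af3c_ag.AllDegreesGroupless

open Pool.Agent.W602.GT Pool.Agent.Y190.BV Pool.Agent.Y190.GN Pool.Agent.Y190.AG
open Pool.Agent.U463.PG (SimpleOff)

theorem result {K : Type} [Field K] [IsAlgClosed K] [CharZero K] {N n m : ℕ} (hm : 2 ≤ m)
    (hN : 4 * n ≤ N) {a : Fin (N + 1) → K} (ha : Function.Injective a)
    {ι κ : Type} (F : ι → MvPolynomial (Fin (N + 1)) K) (hF : ∀ e, IsForm (F e))
    (G : κ → MvPolynomial (Fin (N + 1)) K) (hG : ∀ e, IsForm (G e))
    (hV : Cone F = PowVal a n m ∨ Cone F ⊆ PowVal a n m ∧ SimpleOff a n m F G) :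
    [AlgHypOff F G, BoundedOff F G, GenusOneOff F G, GmOff F G, LineOff F G].TFAE ∧
    ((∀ T : Finset K, (RingPts F G T).Finite) → AlgHypOff F G) ∧
    (1 ≤ n → ∀ k0 : Subfield K, Moving k0 a n →
      [∀ (L : Type) [Field L] [Algebra K L] [IsAlgClosed L] (T : Finset L),
          (FieldPts F G k0 T).Finite,
        ∀ T : Finset K, (RingPts F G T).Finite, AlgHypOff F G].TFAE) ∧
    (1 ≤ n → 5 * n ≤ N → AlgebraicIndependent ℚ a → ∃ k0 : Subfield K, Moving k0 a n) := by
  have h := Pool.Agent.U463.PG.curves_tfaeS (m := m) hm (Nat.lt_succ_of_le hN) ha hF hG hV
  have h1 : AlgHypOff F G ↔ LineOff F G := h.out 0 4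
  refine ⟨h, fun h2 => h1.2 (line_of_ring hG h2), fun hn k0 hk => ?_,
    fun hn h5 hi => moving_of_indep hn h5 hi⟩
  rw [h1]
  exact Pool.Agent.U463.PG.groupless_tfaeS hm hn ha hk hF hG hV

end Pool.Agent.Results.MP_c7af3c_ag.AllDegreesGroupless
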