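import Mathlib
import Pool.Agent.U742.GR.Spc

/-!
# Grouplessness and arithmetic hyperbolicity for the closed subsets of power value varieties

MP_c7af3c_ag, Q1: the conjecture of Lang, that a projective variety is groupless if and only if it is
arithmetically hyperbolic, for the closed subsets `V` of the varieties `X` of the vectors whose
`m`-th powers, for instance whose squares, are the values of a polynomial of degree at most `n` at
given elements, for ALL degrees `n`.

`X = PowVal a n m` is the (cone over the) smooth complete intersection in `P^N` of the vectors `x` for
which there is a polynomial `H` of degree at most `n` with `x i ^ m = H (a i)` for all `i`. It contains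
linear subspaces of all dimensions `e ≤ n / m`: for the `ζ` such that the `ζ i ^ m` are the values
`G0 (a i)` of a nonzero polynomial `G0` of degree at most `n - e m` (`LinSp a n m e ζ`) the vectors
`(q (a i) ζ i)`, with `q` of degree at most `e`, are in `X`. The intersection of `V = {F = 0}` with
this linear subspace has the equations `secF a F e ζ`. A second closed set `Z` is given by forms `G`
(it is empty for the family with the only member `1`).

The theorem says that both sides of the conjecture can be tested on these intersections `V ∩ Λ`: each
of the following properties holds for `V` if and only if it holds for all `V ∩ Λ`.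

* `SpecialOff F G`: the rational maps from special varieties to `V`, for instance the morphisms from
  abelian varieties, with image not in `Z`, are constant.
* `GenusOneOff F G`: the morphisms from smooth projective curves of genus at most one to `V`, with
  image not in `Z`, are constant (the curve is given by its function field `L`, the morphism by its
  homogeneous coordinates, and `2 g - 2` is `canDeg K L`).
* `GmOff F G`: the images of the nonconstant morphisms from the multiplicative group to `V` are in
  `Z`.
* the sets `RingPts F G T` of the points of `V` outside `Z` with homogeneous coordinates in the ring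
  `A` generated by the finite set `T` that generate the unit ideal of `A` are finite.
* the sets `FieldPts F G k0 T` of the points of `V` outside `Z` with homogeneous coordinates in the
  field generated by the finite set `T` over the subfield `k0` of `K` are finite.

For `Z` empty, grouplessness lies between the first two properties, and arithmetic hyperbolicity
between the last two. So the conjecture holds for `V` if it holds for the closed subsets `V ∩ Λ` of
projective spaces of dimension at most `n / m` (for `n < 3 m` these are plane curves, points, or
planes).

`LinesInSections a n m F G` says: if all lines in `V` are in `Z` (`LineOff F G`) then the sets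
`V ∩ Λ` have only finitely many points outside of `Z` (`Pts`). Under this hypothesis all the
properties are equivalent to `LineOff F G`. It is satisfied if `n < 2 m`, or if `V = X`, or if the
points of `V` outside of `Z` are simple (`SimpleOff`: the polynomial `H` is not divisible by the
`m`-th power of a polynomial of degree at least two), and, for `Z` empty, for instance if all curves
in `V` which are contained in a linear subspace of `X` are lines.

`Moving k0 a n` says that more than `4 n` of the `a j` lie in the field `k0`, and that for an element
`s` that is transcendental over `k0` there are `n` of the `a j` such that `s` is algebraic over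
`k0 (a j)`.

The proof. Over a finitely generated extension of `k0` the polynomials `H` of the points of `X`
belong to finitely many classes modulo `m`-th powers and constants (`Pool.Agent.U742.WD.classes_fg`);
so the rational points of `X` are contained in FINITELY many of the linear subspaces
(`Pool.Agent.U742.GR.spaces_fg`). Over function fields of curves of genus at most one the height
inequality for polynomials without factors of multiplicity `m` shows that there is one class with
constant coefficients.
-/

set_option autoImplicit false

namespace Pool.Agent.Results.MP_c7af3c_ag.AllSubvarietiesGroupless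

open Pool.Agent.W602.GT Pool.Agent.Y190.BV Pool.Agent.Y190.GN Pool.Agent.Y190.AG
open Pool.Agent.U463.PG (SimpleOff)
open Pool.Agent.U742.GR

/-- **Grouplessness and arithmetic hyperbolicity for the closed subsets of power value varieties** -/
theorem result {K : Type} [Field K] [IsAlgClosed K] [CharZero K] {N n m : ℕ} (hm : 2 ≤ m)
    (hN : 5 * n ≤ N) {a : Fin (N + 1) → K} (ha : Function.Injective a)
    {ι κ : Type} (F : ι → MvPolynomial (Fin (N + 1)) K) (hF : ∀ e, IsForm (F e))
    (G : κ → MvPolynomial (Fin (N + 1)) K) (hG : ∀ e, IsForm (G e))
    (hV : Cone F ⊆ PowVal a n m) :
    -- curves
    (GenusOneOff F G ↔ ∀ e ζ, LinSp a n m e ζ → GenusOneOff (secF a F e ζ) G) ∧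
    (GmOff F G ↔ ∀ e ζ, LinSp a n m e ζ → GmOff (secF a F e ζ) G) ∧
    -- special varieties
    (4 * n + (n + 1) ^ 2 < 2 * (N + 1) →
      (SpecialOff F G ↔ ∀ e ζ, LinSp a n m e ζ → SpecialOff (secF a F e ζ) G) ∧
      (LinesInSections a n m F G → (SpecialOff F G ↔ LineOff F G))) ∧
    -- points
    (∀ k0 : Subfield K, Moving k0 a n →
      ((∀ T : Finset K, (FieldPts F G k0 T).Finite) ↔
        ∀ e ζ, LinSp a n m e ζ → ∀ T : Finset K, (FieldPts (secF a F e ζ) G k0 T).Finite) ∧
      ((∀ T : Finset K, (RingPts F G T).Finite) ↔
        ∀ e ζ, LinSp a n m e ζ → ∀ T : Finset K, (RingPts (secF a F e ζ) G T).Finite)) ∧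
    -- equivalences
    (LinesInSections a n m F G →
      [GenusOneOff F G, GmOff F G, LineOff F G,
        ∀ e ζ, LinSp a n m e ζ → (Pts (secF a F e ζ) G).Finite].TFAE ∧
      ∀ k0 : Subfield K, Moving k0 a n →
        [∀ T : Finset K, (FieldPts F G k0 T).Finite, ∀ T : Finset K, (RingPts F G T).Finite,
          LineOff F G].TFAE) ∧
    (n < 2 * m ∨ Cone F = PowVal a n m ∨ SimpleOff a n m F G → LinesInSections a n m F G) ∧
    (1 ≤ n → AlgebraicIndependent ℚ a → ∃ k0 : Subfield K, Moving k0 a n) :=
  ⟨genus_red hm hN ha hV, gm_red hm hN ha hV,
    fun hN2 => ⟨special_red hm hN2 ha hV, special_iff hm hN2 ha hG hV⟩,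
    fun _ hk => ⟨field_red hm ha hk hV, ring_red hm ha hk hV⟩,
    fun hS => ⟨curves_main hm hN ha hG hV hS, fun _ hk => points_main hm ha hk hG hV hS⟩,
    lines_in hm (by omega) ha hF hV, fun hn hi => moving_of_indep hn hN hi⟩

end Pool.Agent.Results.MP_c7af3c_ag.AllSubvarietiesGroupless
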