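import Pool.Agent.N126.IS.All4

/-!
MP_c7af3c_ag, Q1: Kummer coverings of ARBITRARY projective varieties, of every dimension, in generic
coordinates. They are groupless (even algebraically hyperbolic, with a uniform constant) and
arithmetically hyperbolic (even Mordellic), over every algebraically closed extension; so the
conjecture holds for them. Over an algebraically closed field `K` of infinite transcendence degree,
for example over the complex numbers, EVERY projective variety has such a covering.

Let `V = {H = 0}` be a projective variety over a field `k0` of dimension at most `d` in the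
projective `n`-space, `K` an algebraically closed extension of `k0` of characteristic `0`,
`N ≥ 2 d + 1`, and `l` a matrix of size `(N + 1) × (n + 1)` over `K` with algebraically independent
entries over `k0`. The image of `V` under `l` is a closed subvariety `{F = 0}` of the projective
`N`-space (`IsImage H l F`), and `X = {Pre m F = 0}`, the set of the `x` with
`F (x 0 ^ m, …, x N ^ m) = 0`, is its inverse image under the power map `x ↦ x ^ m`, which is a finite
surjective morphism `X → {F = 0}`.

* `AlgHyperbolic A G`: the degree of every morphism `f` from a smooth projective curve of genus `g`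
  to `{G = 0}` is at most `A max (2 g - 2, 0)`. The curve is given by its function field, the
  morphism by its homogeneous coordinates; its degree is `pht K f`, and `2 g - 2` is `canDeg K L`.
* `BoundedOnCurves G`: these degrees are bounded for each curve. This implies that `{G = 0}` is
  groupless: a nonconstant morphism from an abelian variety is nonconstant on some smooth projective
  curve that is mapped to the abelian variety, and the multiplications by the natural numbers give
  morphisms of unbounded degree from this curve.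
* `Mordellic G`: `{G = 0}` has only finitely many points over each finitely generated subfield which
  contains a fixed finite set. This implies that `{G = 0}` is arithmetically hyperbolic: the points
  of a model over a finitely generated ring are determined by points over its field of fractions.
* `ArithHyp G`: for each subring generated by a finite set, there are only finitely many points of
  `{G = 0}` with homogeneous coordinates in the ring which generate its unit ideal.
-/

set_option autoImplicit false

namespace Pool.Agent.Results.MP_c7af3c_ag.KummerCoveringsGroupless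

open MvPolynomial Pool.Agent.W602.GT Pool.Agent.N126.IS
open Pool.Agent.W603.CX (AlgHyperbolic BoundedOnCurves)

/-- Over every algebraically closed extension `K'` of `K`, `{G = 0}` is algebraically hyperbolic with
the constant `A`, bounded on curves (so it is groupless), Mordellic (so it is arithmetically
hyperbolic), and it has finitely many points over each finitely generated ring. -/
def BothProperties {K : Type} [Field K] {N : ℕ} {ι : Type} (A : ℕ)
    (G : ι → MvPolynomial (Fin (N + 1)) K) : Prop :=
  ∀ (K' : Type) [Field K'] [IsAlgClosed K'] [Algebra K K'],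
    AlgHyperbolic A (fun i => map (algebraMap K K') (G i)) ∧
    BoundedOnCurves (fun i => map (algebraMap K K') (G i)) ∧
    Mordellic (fun i => map (algebraMap K K') (G i)) ∧
    ArithHyp (fun i => map (algebraMap K K') (G i))

theorem isImage_map {k0 K K' : Type} [Field k0] [Field K] [Field K'] [Algebra k0 K] [Algebra K K']
    [Algebra k0 K'] [IsScalarTower k0 K K'] {n N : ℕ} {ι0 ι : Type}
    {H : ι0 → MvPolynomial (Fin (n + 1)) k0} {l : Fin (N + 1) → Fin (n + 1) → K}
    {F : ι → MvPolynomial (Fin (N + 1)) K} (h : IsImage H l F) :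
    IsImage H (fun j i => algebraMap K K' (l j i)) (fun i => map (algebraMap K K') (F i)) := by
  intro Ω _ _ y
  let _ : Algebra K Ω := ((algebraMap K' Ω).comp (algebraMap K K')).toAlgebra
  have h1 := h Ω y
  have e1 : ∀ i, aeval y (map (algebraMap K K') (F i)) = aeval y (F i) := by
    intro i
    rw [aeval_def, aeval_def, eval₂_map]
    rfl
  have e2 : ∀ (v : Fin (n + 1) → Ω) i, aeval v (map (algebraMap k0 K') (H i)) =
      aeval v (map (algebraMap k0 K) (H i)) := by
    intro v i
    rw [aeval_def, aeval_def, eval₂_map, eval₂_map]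
    congr 1
    rw [IsScalarTower.algebraMap_eq k0 K K', ← RingHom.comp_assoc]
    rfl
  simp only [e1, e2]
  exact h1

theorem geomA {N m D : ℕ} {T : Finset (Fin (N + 1) →₀ ℕ)} (hm : bound N T.card < m) :
    ∃ A : ℕ, ∀ (K : Type) [Field K] [IsAlgClosed K] [CharZero K] (ι : Type)
      (F : ι → MvPolynomial (Fin (N + 1)) K), (∀ i, (F i).IsHomogeneous D) →
      (∀ i, (F i).support ⊆ T) → AllGeneralType (Pre m F) →
      AlgHyperbolic A (Pre m F) ∧ BoundedOnCurves (Pre m F) := by
  obtain ⟨A, hA⟩ := geom_all (n := N) (m := m) (D := D) (T := T) hm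
  refine ⟨A, fun K _ _ _ ι F hF hT h => ?_⟩
  have h4 := (hA K ι F hF hT).1
  have h5 : AlgHyperbolic A (Pre m F) ↔ AllGeneralType (Pre m F) := h4.out 0 4
  have h6 : BoundedOnCurves (Pre m F) ↔ AllGeneralType (Pre m F) := h4.out 1 4
  exact ⟨h5.2 h, h6.2 h⟩

theorem both {N m D : ℕ} {T : Finset (Fin (N + 1) →₀ ℕ)} {A : ℕ}
    (hA : ∀ (K : Type) [Field K] [IsAlgClosed K] [CharZero K] (ι : Type)
      (F : ι → MvPolynomial (Fin (N + 1)) K), (∀ i, (F i).IsHomogeneous D) →
      (∀ i, (F i).support ⊆ T) → AllGeneralType (Pre m F) →
      AlgHyperbolic A (Pre m F) ∧ BoundedOnCurves (Pre m F))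
    (hm : bound N T.card < m)
    {K : Type} [Field K] [IsAlgClosed K] [CharZero K] {k0 : Type} [Field k0] [Algebra k0 K]
    {n d : ℕ} {ι0 ι : Type} {H : ι0 → MvPolynomial (Fin (n + 1)) k0}
    {l : Fin (N + 1) → Fin (n + 1) → K} {F : ι → MvPolynomial (Fin (N + 1)) K}
    (hH : ∀ i, IsForm (H i)) (hd : DimLE k0 H d) (hN : 2 * d + 1 ≤ N)
    (hl : AlgebraicIndependent k0 (fun p : Fin (N + 1) × Fin (n + 1) => l p.1 p.2))
    (hF : ∀ i, (F i).IsHomogeneous D) (hT : ∀ i, (F i).support ⊆ T) (hI : IsImage H l F) :
    BothProperties A (Pre m F) := by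
  classical
  intro K' _ _ _
  have : CharZero K' := charZero_of_injective_algebraMap (algebraMap K K').injective
  let _ : Algebra k0 K' := ((algebraMap K K').comp (algebraMap k0 K)).toAlgebra
  have : IsScalarTower k0 K K' := IsScalarTower.of_algebraMap_eq fun _ => rfl
  have hl' : AlgebraicIndependent k0
      (fun p : Fin (N + 1) × Fin (n + 1) => (fun j i => algebraMap K K' (l j i)) p.1 p.2) :=
    hl.map' (f := IsScalarTower.toAlgHom k0 K K') (algebraMap K K').injective
  have e : (fun i => map (algebraMap K K') (Pre m F i)) =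
      Pre m (fun i => map (algebraMap K K') (F i)) := by
    funext i
    unfold Pre
    rw [map_expand]
  rw [e]
  have hF' : ∀ i, (map (algebraMap K K') (F i)).IsHomogeneous D := fun i => (hF i).map _
  have hT' : ∀ i, (map (algebraMap K K') (F i)).support ⊆ T :=
    fun i => (support_map_subset _ _).trans (hT i)
  have hI' : IsImage H (fun j i => algebraMap K K' (l j i))
      (fun i => map (algebraMap K K') (F i)) := isImage_map hI
  have h0 := kummer_all (K := K') (k0 := k0) (n := n) (N := N) (d := d) (m := m) (D := D) (H := H)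
    (l := fun j i => algebraMap K K' (l j i)) (T := T) (F := fun i => map (algebraMap K K') (F i))
    hH hd hN hl' hF' hT' hI' hm
  have h4 := hA K' ι (fun i => map (algebraMap K K') (F i)) hF' hT' h0.2.2
  have h5 : Mordellic (Pre m fun i => map (algebraMap K K') (F i)) ↔
      ArithHyp (Pre m fun i => map (algebraMap K K') (F i)) :=
    (arith_all (K := K') (n := N) (m := m) (D := D) (T := T)
      (F := fun i => map (algebraMap K K') (F i)) hF' hT' hm).out 0 1
  exact ⟨h4.1, h4.2, h0.2.1, h5.1 h0.2.1⟩

theorem gen_family {K : Type} [Field K] [CharZero K]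
    (hK : ∀ s : Finset K, ¬ Algebra.IsAlgebraic (IntermediateField.adjoin ℚ (s : Set K)) K)
    (S : Finset K) (P : Type) [Finite P] :
    ∃ x : P → K, AlgebraicIndependent (IntermediateField.adjoin ℚ (S : Set K)) x := by
  classical
  obtain ⟨B, hB⟩ := exists_isTranscendenceBasis (IntermediateField.adjoin ℚ (S : Set K)) K
  by_cases hfin : B.Finite
  · exfalso
    have h1 := hB.isAlgebraic_field
    rw [Subtype.range_coe] at h1
    refine hK (S ∪ hfin.toFinset) ?_
    have h2 := IntermediateField.adjoin_adjoin_left ℚ (S : Set K) B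
    have h3 : ((S ∪ hfin.toFinset : Finset K) : Set K) = (S : Set K) ∪ B := by
      rw [Finset.coe_union, Set.Finite.coe_toFinset]
    rw [h3, ← h2]
    exact h1
  · have hinf : Infinite B := Set.infinite_coe_iff.2 hfin
    obtain ⟨e⟩ : Nonempty (P ↪ B) := by
      obtain ⟨m, ⟨f⟩⟩ := Finite.exists_equiv_fin P
      exact ⟨f.toEmbedding.trans ((Fin.valEmbedding).trans (Infinite.natEmbedding B))⟩
    exact ⟨fun p => (e p : K), hB.1.comp e e.injective⟩

theorem lift_forms {K : Type} [Field K] [CharZero K] {n D : ℕ} {ι0 : Type} [Finite ι0]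
    (H : ι0 → MvPolynomial (Fin (n + 1)) K) (hH : ∀ i, (H i).IsHomogeneous D) :
    ∃ (S : Finset K) (H' : ι0 → MvPolynomial (Fin (n + 1)) (IntermediateField.adjoin ℚ (S : Set K))),
      (∀ i, (H' i).IsHomogeneous D) ∧ ∀ i, map (algebraMap _ K) (H' i) = H i := by
  classical
  have := Fintype.ofFinite ι0
  let S : Finset K := Finset.univ.biUnion fun i => (H i).coeffs
  have h1 : ∀ i, ∃ G : MvPolynomial (Fin (n + 1)) (IntermediateField.adjoin ℚ (S : Set K)),
      map (algebraMap _ K) G = H i := by
    intro i
    have : H i ∈ Set.range (map (algebraMap (IntermediateField.adjoin ℚ (S : Set K)) K)) := by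
      rw [mem_range_map_iff_coeffs_subset]
      intro c hc
      refine ⟨⟨c, IntermediateField.subset_adjoin _ _ ?_⟩, rfl⟩
      exact Finset.mem_coe.2 (Finset.mem_biUnion.2 ⟨i, Finset.mem_univ _, hc⟩)
    exact this
  choose H' hH' using h1
  refine ⟨S, H', fun i => ?_, hH'⟩
  have h2 : (map (algebraMap (IntermediateField.adjoin ℚ (S : Set K)) K) (H' i)).IsHomogeneous D := by
    rw [hH' i]
    exact hH i
  exact IsHomogeneous.of_map (RingHom.injective _) h2

theorem inj_matrix {k0 K : Type} [Field k0] [Field K] [Algebra k0 K] {n N : ℕ} (hn : n ≤ N)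
    {l : Fin (N + 1) → Fin (n + 1) → K}
    (hl : AlgebraicIndependent k0 (fun p : Fin (N + 1) × Fin (n + 1) => l p.1 p.2))
    {v : Fin (n + 1) → K} (hv : ∀ j, ∑ i, l j i * v i = 0) : v = 0 := by
  classical
  let c : Fin (n + 1) → Fin (N + 1) := Fin.castLE (by omega)
  have hc : Function.Injective c := Fin.castLE_injective _
  let A : Matrix (Fin (n + 1)) (Fin (n + 1)) K := fun j i => l (c j) i
  have h1 : AlgebraicIndependent k0 (fun p : Fin (n + 1) × Fin (n + 1) => A p.1 p.2) := by
    refine hl.comp (fun p : Fin (n + 1) × Fin (n + 1) => (c p.1, p.2)) ?_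
    intro p q hpq
    simp only [Prod.mk.injEq] at hpq
    exact Prod.ext (hc hpq.1) hpq.2
  have h2 : A.det ≠ 0 := by
    have h3 := Matrix.mvPolynomialX_mapMatrix_aeval (R := k0) (m := Fin (n + 1)) A
    intro h0
    apply Matrix.det_mvPolynomialX_ne_zero (Fin (n + 1)) k0
    apply h1
    rw [map_zero, ← h0]
    conv_rhs => rw [← h3]
    rw [AlgHom.map_det]
  have h4 : A.mulVec v = 0 := by
    funext j
    exact hv (c j)
  exact Matrix.eq_zero_of_mulVec_eq_zero h2 h4

theorem support_sub {K : Type} [Field K] {N D : ℕ} {G : MvPolynomial (Fin (N + 1)) K}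
    (hG : G.IsHomogeneous D) :
    G.support ⊆ Finset.finsuppAntidiag (Finset.univ : Finset (Fin (N + 1))) D := by
  intro u hu
  have h1 : u.degree = D := by
    rw [Finsupp.degree_eq_weight_one]
    exact hG (mem_support_iff.1 hu)
  rw [Finset.mem_finsuppAntidiag]
  refine ⟨?_, Finset.subset_univ _⟩
  rw [Finsupp.degree_eq_sum] at h1
  exact h1

theorem dim_le (k0 : Type) [Field k0] {n : ℕ} {ι0 : Type} (H : ι0 → MvPolynomial (Fin (n + 1)) k0) :
    DimLE k0 H n := by
  intro Ω _ _ v _
  refine ⟨Finset.univ, by simp, fun i => ?_⟩
  exact isAlgebraic_algebraMap (⟨v i, IntermediateField.subset_adjoin _ _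
    ⟨i, by simp, rfl⟩⟩ : IntermediateField.adjoin k0 (v '' ((Finset.univ : Finset (Fin (n + 1))) :
      Set (Fin (n + 1)))))

/-- (1) Generic Kummer coverings of arbitrary projective varieties. For given `N`, `m`, `D` and `T`
with `m > (N + 1) (|T| + 1) (|T| - 1)²` there is a constant `A` such that the following holds. Let `K`
be an algebraically closed field of characteristic `0`, `k0 → K` a field extension, and `V = {H = 0}` a
projective variety over `k0` of dimension at most `d`, `2 d + 1 ≤ N`, in the projective `n`-space; let
`l` be a matrix over `K` of size `(N + 1) × (n + 1)` with algebraically independent entries over `k0`,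
and let the image of `V` under `l` be given by forms `F i` over `K` of degree `D` with exponents in
`T`. Then the inverse image `X` of `{F = 0}` under the `m`-th power map has `BothProperties A`: it is
groupless and arithmetically hyperbolic, over every algebraically closed extension of `K`.

(2) Every projective variety has such a covering. For all `n` and `D > 0` there is a number `M` and
for all `m > M` there is a number `A` such that for every algebraically closed field `K` of
characteristic `0` which is not algebraic over any finitely generated subfield, and all forms `H i`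
over `K` of degree `D` in `n + 1` variables (`i` in a finite set) there are an injective linear map
`l : K ^ (n + 1) → K ^ (2 n + 2)` and forms `F i` of degree `D` whose set of zeros is the image of the
set of zeros of the forms `H i`, such that the inverse image `X` of `{F = 0}` under the `m`-th power
map has `BothProperties A`. -/
theorem result :
    (∀ (N m D : ℕ) (T : Finset (Fin (N + 1) →₀ ℕ)),
      (N + 1) * (T.card + 1) * (T.card - 1) ^ 2 < m → ∃ A : ℕ,
      ∀ (K : Type) [Field K] [IsAlgClosed K] [CharZero K] (k0 : Type) [Field k0] [Algebra k0 K]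
        (n d : ℕ) (ι0 ι : Type) (H : ι0 → MvPolynomial (Fin (n + 1)) k0)
        (l : Fin (N + 1) → Fin (n + 1) → K) (F : ι → MvPolynomial (Fin (N + 1)) K),
        (∀ i, IsForm (H i)) → DimLE k0 H d → 2 * d + 1 ≤ N →
        AlgebraicIndependent k0 (fun p : Fin (N + 1) × Fin (n + 1) => l p.1 p.2) →
        (∀ i, (F i).IsHomogeneous D) → (∀ i, (F i).support ⊆ T) → IsImage H l F →
        BothProperties A (Pre m F)) ∧
    ∀ n D : ℕ, 0 < D → ∃ M : ℕ, ∀ m : ℕ, M < m → ∃ A : ℕ,
      ∀ (K : Type) [Field K] [IsAlgClosed K] [CharZero K],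
        (∀ s : Finset K, ¬ Algebra.IsAlgebraic (IntermediateField.adjoin ℚ (s : Set K)) K) →
        ∀ (ι0 : Type) [Finite ι0] (H : ι0 → MvPolynomial (Fin (n + 1)) K),
        (∀ i, (H i).IsHomogeneous D) →
        ∃ (l : Fin (2 * n + 1 + 1) → Fin (n + 1) → K) (ι : Type)
          (F : ι → MvPolynomial (Fin (2 * n + 1 + 1)) K),
          (∀ v : Fin (n + 1) → K, (∀ j, ∑ i, l j i * v i = 0) → v = 0) ∧
          (∀ i, (F i).IsHomogeneous D) ∧ IsImage H l F ∧ BothProperties A (Pre m F) := by
  refine ⟨fun N m D T hm => ?_, fun n D hD => ?_⟩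
  · have hm' : bound N T.card < m := hm
    obtain ⟨A, hA⟩ := geomA (N := N) (m := m) (D := D) (T := T) hm'
    exact ⟨A, fun K _ _ _ k0 _ _ n d ι0 ι H l F hH hd hN hl hF hT hI =>
      both (N := N) (m := m) (D := D) (T := T) (A := A) hA hm' (l := l) hH hd hN hl hF hT hI⟩
  · refine ⟨bound (2 * n + 1)
      (Finset.finsuppAntidiag (Finset.univ : Finset (Fin (2 * n + 1 + 1))) D).card, fun m hm => ?_⟩
    generalize hT : Finset.finsuppAntidiag (Finset.univ : Finset (Fin (2 * n + 1 + 1))) D = T at hm
    obtain ⟨A, hA⟩ := geomA (N := 2 * n + 1) (m := m) (D := D) (T := T) hm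
    refine ⟨A, fun K _ _ _ hK ι0 _ H hH => ?_⟩
    obtain ⟨S, H', hH', hmap⟩ := lift_forms H hH
    obtain ⟨x, hx⟩ := gen_family hK S (Fin (2 * n + 1 + 1) × Fin (n + 1))
    have hx' : AlgebraicIndependent (IntermediateField.adjoin ℚ (S : Set K))
        (fun p : Fin (2 * n + 1 + 1) × Fin (n + 1) => (fun j i => x (j, i)) p.1 p.2) := hx
    obtain ⟨ι, F, hF, hI⟩ := image_all (l := fun j i => x (j, i)) (by omega : n ≤ 2 * n + 1) hD hH'
      hx'
    have hF' : ∀ i, (F i).support ⊆ T := fun i => by
      rw [← hT]
      exact support_sub (hF i)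
    have hB : BothProperties A (Pre m F) :=
      both (N := 2 * n + 1) (m := m) (D := D) (T := T) (A := A) hA hm (d := n)
        (l := fun j i => x (j, i)) (fun i => ⟨D, hH' i⟩) (dim_le _ H') le_rfl hx' hF hF' hI
    have hin : ∀ v : Fin (n + 1) → K,
        (∀ j, ∑ i, (fun (j : Fin (2 * n + 1 + 1)) (i : Fin (n + 1)) => x (j, i)) j i * v i = 0) →
        v = 0 := fun v hv =>
      inj_matrix (k0 := IntermediateField.adjoin ℚ (S : Set K)) (n := n) (N := 2 * n + 1)
        (l := fun j i => x (j, i)) (by omega) hx' hv
    refine ⟨fun j i => x (j, i), ι, F, hin, hF, ?_, hB⟩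
    intro Ω _ _ y
    have e : ∀ (v : Fin (n + 1) → Ω) i, aeval v (map (algebraMap K K) (H i)) =
        aeval v (map (algebraMap (IntermediateField.adjoin ℚ (S : Set K)) K) (H' i)) := by
      intro v i
      rw [hmap, Algebra.algebraMap_self, map_id]
    simp only [e]
    exact hI Ω y

end Pool.Agent.Results.MP_c7af3c_ag.KummerCoveringsGroupless
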