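import Pool.Agent.U207.SM.Gpl

/-!
# Groupless and arithmetically hyperbolic varieties: smooth models over hyperbolic bases suffice

Over `k = ℂ`. Let `X` be any projective variety (closed subset of `P^n`, of any dimension and with any
singularities).

(1) There are a smooth complete intersection of quadrics `V = {x_l^2 = P_l(w), l < c}` in `P^{N+c}`, which
is hyperbolic (so all holomorphic maps from complex tori to it are constant), and a smooth complete
intersection `Y = {∑_k w_k A_{ik}(h) = 0, i < s}` in `P^n × V`, such that the projection `Y → V` has the
fibre `X` over the points with `w = (1 : 0 : … : 0)`, for instance over the point with all `x_l = 1`,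
and finite fibres over all other points of `V`. `Y` is groupless if and only if `X` is groupless, and
for every subring `B` of `ℂ` with finite `V(B)` the set of `B`-valued points `Y(B)` is finite if and only
if `X(B)` is finite.

(2) Q1 (a projective variety is groupless if and only if it is arithmetically hyperbolic) for
all projective varieties over `ℂ` is equivalent to Q1 for the smooth varieties `Y` of (1), and
the implication groupless ⟹ arithmetically hyperbolic for all projective varieties is equivalent to
this implication for the varieties `Y`. So Q1 for all projective manifolds is equivalent to Q1 for all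
projective varieties; and if Q1 holds for `V`, then for the varieties `Y` all maps from abelian varieties
and all but finitely many of the points over finitely generated rings are in finitely many copies of
`X`, which are contracted by the generically finite morphism to `V`.

For the second half of Q1 (arithmetically hyperbolic varieties are groupless) it is not enough that
`X` is contained in a smooth variety `Y` with control of the maps from abelian varieties, as in the hand-in
`SmoothHypersurfacesSuffice` of the library: one needs that `Y` has only finitely many points over
finitely generated rings outside of `X`. This follows here from Q1 for the base `V`, which does not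
depend on `X`, and from the finiteness of the fibres.
-/

set_option autoImplicit false

namespace Pool.Agent.Results.MP_c7af3c_ag.SmoothModels

open MvPolynomial
open Pool.Agent.U207.QK (coverForm)
open Pool.Agent.U207.SM

theorem result :
    (∀ (n : ℕ) (ι : Type) [Finite ι] (F : ι → MvPolynomial (Fin (n + 1)) ℂ),
      (∀ i, ∃ e, (F i).IsHomogeneous e) →
      ∃ (N c s : ℕ) (A : Fin s → Fin (N + 1) → MvPolynomial (Fin (n + 1)) ℂ)
        (P : Fin c → MvPolynomial (Fin (N + 1)) ℂ), Model A P ∧
        (∀ x : Fin (n + 1) → ℂ, x ≠ 0 →
          ((∀ i, aeval x (A i 0) = 0) ↔ ∀ i, aeval x (F i) = 0)) ∧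
        (Groupless₂ (modelEqs A P) ↔ Groupless F) ∧
        ∀ B : Subring ℂ, (ringPoints B (coverForm P)).Finite →
          ((ringPoints₂ B (modelEqs A P)).Finite ↔ (ringPoints B F).Finite)) ∧
    (GQ1All ↔ GQ1Models) ∧ (GHalfAll ↔ GHalfModels) := by
  refine ⟨?_, gq1, ghalf⟩
  intro n ι _ F hF
  obtain ⟨N, c, s, A, P, hM, hAF⟩ := exists_model_of ℂ F hF
  have hAF' : ∀ x : Fin (n + 1) → ℂ, x ≠ 0 →
      ((∀ i, aeval x (A i 0) = 0) ↔ ∀ i, aeval x (F i) = 0) := fun x hx => hAF ℂ x hx
  refine ⟨N, c, s, A, P, hM, hAF', ?_, fun B hV => ?_⟩
  · rw [gpl_model hM, gpl_congr hAF']
  · rw [← ring_congr hAF' B]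
    exact ⟨ring_down hM B, ring_up hM B hV⟩

end Pool.Agent.Results.MP_c7af3c_ag.SmoothModels
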